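import Pool.Agent.Helper74.OKA.All

/-!
# The ball approximation property is equivalent to the convex approximation property

Answer (yes) to the question of Gromov: every complex manifold with the approximation property
for closed Euclidean balls has it for all compact convex sets.
-/

set_option autoImplicit false

open Set Metric Topology
open scoped Manifold ContDiff

namespace Pool.Agent.Results.MP_7bedea_an.BallIffConvexApprox

universe u

/-- `Y` (with charts in `ℂᵈ`) has the approximation property for the set `K ⊆ ℂⁿ`: every map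
`f`, holomorphic on an open neighbourhood `U` of `K`, is on `K` a uniform limit of holomorphic
maps `ℂⁿ → Y`. -/
def ApproxOn (d : ℕ) (Y : Type u) [MetricSpace Y] [ChartedSpace (EuclideanSpace ℂ (Fin d)) Y]
    (n : ℕ) (K : Set (EuclideanSpace ℂ (Fin n))) : Prop :=
  ∀ (U : Set (EuclideanSpace ℂ (Fin n))) (f : EuclideanSpace ℂ (Fin n) → Y), IsOpen U → K ⊆ U →
    MDifferentiableOn 𝓘(ℂ, EuclideanSpace ℂ (Fin n)) 𝓘(ℂ, EuclideanSpace ℂ (Fin d)) f U →
    ∀ ε > 0, ∃ g : EuclideanSpace ℂ (Fin n) → Y,
      MDifferentiable 𝓘(ℂ, EuclideanSpace ℂ (Fin n)) 𝓘(ℂ, EuclideanSpace ℂ (Fin d)) g ∧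
      ∀ z ∈ K, dist (g z) (f z) < ε

/-- the ball approximation property: approximation on all closed Euclidean balls in `ℂⁿ`,
`n ≥ 1`, of every centre and radius -/
def BAP (d : ℕ) (Y : Type u) [MetricSpace Y] [ChartedSpace (EuclideanSpace ℂ (Fin d)) Y] : Prop :=
  ∀ n : ℕ, 1 ≤ n → ∀ (c : EuclideanSpace ℂ (Fin n)) (r : ℝ), 0 < r →
    ApproxOn d Y n (closedBall c r)

/-- the convex approximation property: approximation on all compact convex sets in `ℂⁿ`,
`n ≥ 1` -/
def CAP (d : ℕ) (Y : Type u) [MetricSpace Y] [ChartedSpace (EuclideanSpace ℂ (Fin d)) Y] : Prop :=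
  ∀ n : ℕ, 1 ≤ n → ∀ K : Set (EuclideanSpace ℂ (Fin n)), IsCompact K → Convex ℝ K →
    ApproxOn d Y n K

/-- For every complex manifold `Y` and every metric on `Y` inducing its topology, the ball
approximation property and the convex approximation property are equivalent. -/
theorem result (d : ℕ) (Y : Type u) [MetricSpace Y] [ChartedSpace (EuclideanSpace ℂ (Fin d)) Y]
    [IsManifold 𝓘(ℂ, EuclideanSpace ℂ (Fin d)) 1 Y] : BAP d Y ↔ CAP d Y :=
  Pool.Agent.Helper74.OKA.bap_iff_cap (EuclideanSpace ℂ (Fin d)) Y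

end Pool.Agent.Results.MP_7bedea_an.BallIffConvexApprox
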